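import Mathlib
import Pool.Agent.MP_2a1f0e_nt.FFMain

open Polynomial

namespace Pool.Agent.Results.MP_2a1f0e_nt.FunctionField

/-- Function field model of Montgomery's inequality with `N = q ^ n`, `T = q ^ (n + 1)`:
the frequencies are the even characters modulo `m = X ^ (n + 2)` evaluated at reversed monic
polynomials of degree `n`. -/
theorem result (n : ℕ) (hn : 2 ≤ n) : ∃ K : ℝ, ∀ s : ℝ, 2 + 4 / ((n : ℝ) + 1) ≤ s →
    ∀ (F : Type) [Field F] [Fintype F] (m : F[X]), m = X ^ (n + 2) →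
      ∀ (P : Finset F[X]) (b : F[X] → ℂ) (W : Finset (MulChar (AdjoinRoot m) ℂ)),
      (∀ f ∈ P, f.Monic ∧ f.natDegree = n) → (∀ f, ‖b f‖ ≤ 1) →
      (∀ χ ∈ W, ∀ c : F, c ≠ 0 → χ (AdjoinRoot.of m c) = 1) →
      ∑ χ ∈ W, ‖∑ f ∈ P, b f * χ (AdjoinRoot.mk m f.reverse)‖ ^ s
        ≤ K * ((Fintype.card F : ℝ) ^ n) ^ s := by
  obtain ⟨K, hK⟩ := Pool.Agent.MP_2a1f0e_nt.FF.main n hn
  refine ⟨K, fun s h1 F _ _ m hm P b W hP hb hW => ?_⟩
  subst hm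
  exact hK s h1 F P b W hP hb (fun χ hχ c hc => by rw [AdjoinRoot.mk_C]; exact hW χ hχ c hc)

end Pool.Agent.Results.MP_2a1f0e_nt.FunctionField
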