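import Mathlib
import Pool.Agent.MP_2a1f0e_nt.FFPar

namespace Pool.Agent.Results.MP_2a1f0e_nt.Paraboloid

/-- Finite field restriction model of Montgomery's inequality with `N = q ^ n`, `T = q ^ (n + 1)`:
extension from the paraboloid of a nondegenerate quadratic form, bounded data. -/
theorem result (n : ℕ) (hn : 2 ≤ n) : ∃ K : ℝ, ∀ s : ℝ, 2 + 4 / ((n : ℝ) + 1) ≤ s →
    ∀ (F : Type) [Field F] [Fintype F] (Q : QuadraticForm F (Fin n → F)) (ψ : AddChar F ℂ)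
      (b : (Fin n → F) → ℂ), (∀ u, (∀ v, QuadraticMap.polar Q u v = 0) → u = 0) → ψ ≠ 1 →
      (∀ u, ‖b u‖ ≤ 1) →
      ∑ ξ : Fin n → F, ∑ τ : F, ‖∑ u : Fin n → F, b u * ψ (∑ i, ξ i * u i + τ * Q u)‖ ^ s
        ≤ K * ((Fintype.card F : ℝ) ^ n) ^ s :=
  Pool.Agent.MP_2a1f0e_nt.FF.par_main n hn

end Pool.Agent.Results.MP_2a1f0e_nt.Paraboloid
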