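import Pool.Agent.MP_2a1f0e_nt.SQ.Main

set_option autoImplicit false

namespace Pool.Agent.Results.MP_2a1f0e_nt.SixthPower

theorem result :
    ∀ ε : ℝ, 0 < ε → ∃ K : ℝ, ∀ (N : ℕ) (T V : ℝ), 1 ≤ N → 1 ≤ T → 0 < V →
      ∀ b : ℕ → ℂ, (∀ n, ‖b n‖ ≤ 1) →
        ∀ W : Finset ℝ, (∀ t ∈ W, 0 ≤ t ∧ t ≤ T) →
          (∀ s ∈ W, ∀ t ∈ W, s ≠ t → 1 ≤ |s - t|) →
          (∀ t ∈ W, V ≤ ‖∑ n ∈ Finset.Icc N (2 * N),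
              b n * Complex.exp (Complex.I * (t : ℂ) * ((Real.log (n : ℝ) : ℝ) : ℂ))‖) →
          (W.card : ℝ) ≤ K * (N : ℝ) ^ ε *
            ((N : ℝ) ^ 4 / V ^ 4 + (T ^ (3 / 4 : ℝ) * (N : ℝ) ^ 4 + T * (N : ℝ) ^ 3) / V ^ 6) :=
  Pool.Agent.MP_2a1f0e_nt.SQ.final6_all

end Pool.Agent.Results.MP_2a1f0e_nt.SixthPower
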