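import Pool.Agent.MP_2a1f0e_nt.Main

set_option autoImplicit false

namespace Pool.Agent.Results.MP_2a1f0e_nt.Sparse

theorem result :
    ∀ q : ℝ, 2 ≤ q → ∀ ε : ℝ, 0 < ε → ∀ c : ℝ, ∃ K : ℝ,
      ∀ N T : ℕ, 1 ≤ N →
        ∀ b : ℕ → ℂ, (∀ n, ‖b n‖ ≤ 1) →
          ∑ n ∈ Finset.Icc N (2 * N), ‖b n‖ ≤
            c * (N : ℝ) ^ (1 - Int.fract (q / 2) * (1 - Int.fract (q / 2)) /
              ((⌊q / 2⌋₊ : ℝ) + (1 + (((⌊q / 2⌋₊ + 1) / 2 : ℕ) : ℝ)) * Int.fract (q / 2))) →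
          ∑ t ∈ Finset.Icc 1 T,
              ‖∑ n ∈ Finset.Icc N (2 * N),
                  b n * Complex.exp (Complex.I * (t : ℂ) * ((Real.log (n : ℝ) : ℝ) : ℂ))‖ ^ q
            ≤ K * (N : ℝ) ^ ε * ((N : ℝ) ^ q + (N : ℝ) ^ (q / 2) * (T : ℝ)) := by
  intro q hq ε hε c
  have hk : 1 ≤ ⌊q / 2⌋₊ := Nat.le_floor (by push_cast; linarith)
  have e : ((⌊q / 2⌋₊ : ℕ) : ℝ) + Int.fract (q / 2) = q / 2 := by
    rw [natCast_floor_eq_intCast_floor (by linarith), Int.floor_add_fract]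
  have h := Pool.Agent.MP_2a1f0e_nt.sparse ⌊q / 2⌋₊ ((⌊q / 2⌋₊ + 1) / 2) hk (by omega)
    (Int.fract_nonneg (q / 2)) (Int.fract_lt_one (q / 2)).le hε c
  rw [e, show 2 * (q / 2) = q by ring] at h
  exact h

end Pool.Agent.Results.MP_2a1f0e_nt.Sparse
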